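import Pool.Agent.helper93.TV.Spec2

/-! Row tv:SG (gauge covariance of the reconstruction). -/

set_option autoImplicit false

namespace Pool.Agent.helper93.TV

open BigOperators Finset Matrix

variable {I V : Type} [Fintype I] [DecidableEq I] [Fintype V] [DecidableEq V]

private lemma SG_iter (D : FD I V) (X : Finset I) (c : V → V → V → V → ℂ) (n n' : ℕ)
    (a : V → ℂ) (T : V → List V → List V → ℂ) (k : ℕ) : ∀ (b : I) (p q : List V),
    D.iter X c n n' (fun p q => ∑ i, a i * T i p q) k b p q =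
      ∑ i, a i * D.iter X c n n' (T i) k b p q := by
  induction k with
  | zero =>
    intro b p q
    simp only [FD.iter]
    by_cases hb : b = D.o
    · simp only [if_pos hb]
    · simp only [if_neg hb, mul_zero, Finset.sum_const_zero]
  | succ k ih =>
    intro b p q
    simp only [FD.iter, FD.step]
    simp only [ih]
    have hR : ∀ i : V, a i * ∑ l ∈ univ.filter (fun l => D.s1 l ∈ X ∧ D.t l = b),
        ∑ p' ∈ lists V n, ∑ q' ∈ lists V n', ∑ l',
          tp c l p p' l' * D.iter X c n n' (T i) k (D.s2 l) p' q' * star (tp c l q q' l') =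
        ∑ l ∈ univ.filter (fun l => D.s1 l ∈ X ∧ D.t l = b),
        ∑ p' ∈ lists V n, ∑ q' ∈ lists V n', ∑ l',
          a i * (tp c l p p' l' * D.iter X c n n' (T i) k (D.s2 l) p' q' *
            star (tp c l q q' l')) := by
      intro i
      simp only [Finset.mul_sum]
    simp only [hR]
    rw [Finset.sum_comm (s := univ) (t := univ.filter (fun l => D.s1 l ∈ X ∧ D.t l = b))]
    refine Finset.sum_congr rfl fun l _ => ?_
    rw [Finset.sum_comm (s := univ) (t := lists V n)]
    refine Finset.sum_congr rfl fun p' _ => ?_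
    rw [Finset.sum_comm (s := univ) (t := lists V n')]
    refine Finset.sum_congr rfl fun q' _ => ?_
    rw [Finset.sum_comm]
    refine Finset.sum_congr rfl fun l' _ => ?_
    rw [Finset.mul_sum, Finset.sum_mul]
    refine Finset.sum_congr rfl fun i _ => ?_
    ring

private lemma SG_Phi (D : FD I V) (X : Finset I) (c : V → V → V → V → ℂ) (m n n' : ℕ)
    (a : V → ℂ) (T : V → List V → List V → ℂ) (b : I) (p q : List V) :
    D.Phi X c m n n' (fun p q => ∑ i, a i * T i p q) b p q =
      ∑ i, a i * D.Phi X c m n n' (T i) b p q := by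
  unfold FD.Phi
  rw [SG_iter, Finset.sum_div]
  refine Finset.sum_congr rfl fun i _ => ?_
  rw [mul_div_assoc]

private lemma SG_Tb (D : FD I V) (m : ℕ) (bp : I → List V) (J : V → List V → ℂ) (u : V → V → ℂ)
    (hG : D.Gau u) (β : V) :
    D.Tb m bp (fun β p => ∑ β', u β β' * J β' p) β =
      fun p w => ∑ β', u β β' * D.Tb m bp J β' p w := by
  funext p w
  unfold FD.Tb
  by_cases h : p = bp (D.t β) ∧ w.take m = bp (D.s1 β)
  · rw [if_pos h]
    refine Finset.sum_congr rfl fun β' _ => ?_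
    by_cases hu : u β β' = 0
    · rw [hu, zero_mul, zero_mul]
    · obtain ⟨e1, _, e3⟩ := hG.supp β β' hu
      rw [← e1, ← e3, if_pos h]
  · rw [if_neg h]
    symm
    apply Finset.sum_eq_zero
    intro β' _
    by_cases hu : u β β' = 0
    · rw [hu, zero_mul]
    · obtain ⟨e1, _, e3⟩ := hG.supp β β' hu
      rw [← e1, ← e3, if_neg h, mul_zero]

private lemma SG_Rv (D : FD I V) (X : Finset I) (c : V → V → V → V → ℂ) (m : ℕ)
    (bp : I → List V) (J : V → List V → ℂ) (u : V → V → ℂ) (hG : D.Gau u) (β δ : V)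
    (w : List V) :
    D.Rv X c m bp (fun β p => ∑ β', u β β' * J β' p) β δ w =
      ∑ β', ∑ δ', u β β' * u δ δ' * D.Rv X c m bp J β' δ' w := by
  have h1 : D.Rv X c m bp (fun β p => ∑ β', u β β' * J β' p) β δ w =
      ∑ p ∈ lists V m, (∑ δ', u δ δ' * J δ' p) *
        ∑ β', u β β' * D.Phi X c m m (2 * m) (D.Tb m bp J β') (D.s1 δ) p w := by
    unfold FD.Rv
    refine Finset.sum_congr rfl fun p _ => ?_
    rw [SG_Tb D m bp J u hG β, SG_Phi]
  rw [h1]
  have h2 : ∀ β' δ' : V, u β β' * u δ δ' * D.Rv X c m bp J β' δ' w =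
      ∑ p ∈ lists V m, (u δ δ' * J δ' p) *
        (u β β' * D.Phi X c m m (2 * m) (D.Tb m bp J β') (D.s1 δ) p w) := by
    intro β' δ'
    by_cases hu : u δ δ' = 0
    · rw [hu, mul_zero, zero_mul]
      symm
      apply Finset.sum_eq_zero
      intro p _
      rw [zero_mul, zero_mul]
    · obtain ⟨e1, _, _⟩ := hG.supp δ δ' hu
      unfold FD.Rv
      rw [Finset.mul_sum]
      refine Finset.sum_congr rfl fun p _ => ?_
      rw [e1]
      ring
  simp only [h2]
  have h3 : ∀ β' : V, ∑ δ', ∑ p ∈ lists V m, (u δ δ' * J δ' p) *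
        (u β β' * D.Phi X c m m (2 * m) (D.Tb m bp J β') (D.s1 δ) p w) =
      ∑ p ∈ lists V m, ∑ δ', (u δ δ' * J δ' p) *
        (u β β' * D.Phi X c m m (2 * m) (D.Tb m bp J β') (D.s1 δ) p w) := fun β' =>
    Finset.sum_comm
  simp only [h3]
  rw [Finset.sum_comm]
  refine Finset.sum_congr rfl fun p _ => ?_
  rw [Finset.mul_sum]
  refine Finset.sum_congr rfl fun β' _ => ?_
  rw [Finset.sum_mul]

private lemma SG_Lv (m : ℕ) (J : V → List V → ℂ) (u : V → V → ℂ) (α γ : V) (w : List V) :
    Lv m (fun β p => ∑ β', u β β' * J β' p) α γ w =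
      ∑ α', ∑ γ', u α α' * u γ γ' * Lv m J α' γ' w := by
  unfold Lv
  rw [Finset.sum_mul_sum]
  refine Finset.sum_congr rfl fun α' _ => Finset.sum_congr rfl fun γ' _ => ?_
  ring

private lemma SG_key (D : FD I V) (X : Finset I) (c : V → V → V → V → ℂ) (m : ℕ)
    (bp : I → List V) (J : V → List V → ℂ) (u : V → V → ℂ) (hG : D.Gau u) (α γ β δ : V) :
    ∑ w ∈ lists V (2 * m), Lv m (fun β p => ∑ β', u β β' * J β' p) α γ w *
        star (D.Rv X c m bp (fun β p => ∑ β', u β β' * J β' p) β δ w) =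
      ∑ α', ∑ γ', ∑ β', ∑ δ', u α α' * u γ γ' *
        (∑ w ∈ lists V (2 * m), Lv m J α' γ' w * star (D.Rv X c m bp J β' δ' w)) *
        star (u β β') * star (u δ δ') := by
  have h1 : ∀ w ∈ lists V (2 * m), Lv m (fun β p => ∑ β', u β β' * J β' p) α γ w *
        star (D.Rv X c m bp (fun β p => ∑ β', u β β' * J β' p) β δ w) =
      ∑ α', ∑ γ', ∑ β', ∑ δ', (u α α' * u γ γ' * Lv m J α' γ' w) *
        (star (u β β') * star (u δ δ') * star (D.Rv X c m bp J β' δ' w)) := by
    intro w _
    have h2 : star (D.Rv X c m bp (fun β p => ∑ β', u β β' * J β' p) β δ w) =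
        ∑ β', ∑ δ', star (u β β') * star (u δ δ') * star (D.Rv X c m bp J β' δ' w) := by
      rw [SG_Rv D X c m bp J u hG, star_sum]
      refine Finset.sum_congr rfl fun β' _ => ?_
      rw [star_sum]
      refine Finset.sum_congr rfl fun δ' _ => ?_
      rw [star_mul', star_mul']
    rw [h2, SG_Lv, Finset.sum_mul]
    refine Finset.sum_congr rfl fun α' _ => ?_
    rw [Finset.sum_mul]
    refine Finset.sum_congr rfl fun γ' _ => ?_
    rw [Finset.mul_sum]
    refine Finset.sum_congr rfl fun β' _ => ?_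
    rw [Finset.mul_sum]
  rw [Finset.sum_congr rfl h1, Finset.sum_comm]
  refine Finset.sum_congr rfl fun α' _ => ?_
  rw [Finset.sum_comm]
  refine Finset.sum_congr rfl fun γ' _ => ?_
  rw [Finset.sum_comm]
  refine Finset.sum_congr rfl fun β' _ => ?_
  rw [Finset.sum_comm]
  refine Finset.sum_congr rfl fun δ' _ => ?_
  simp only [Finset.mul_sum, Finset.sum_mul]
  refine Finset.sum_congr rfl fun w _ => ?_
  ring

private lemma SG_form (D : FD I V) (X : Finset I) (c : V → V → V → V → ℂ) (m : ℕ)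
    (bp : I → List V) (J : V → List V → ℂ) (u : V → V → ℂ) (hG : D.Gau u) :
    D.form X c m bp (fun β p => ∑ β', u β β' * J β' p) = act u (D.form X c m bp J) := by
  funext α γ β δ
  unfold FD.form act
  have hcp : ∀ α' γ' β' δ', u α α' ≠ 0 → u γ γ' ≠ 0 → u β β' ≠ 0 → u δ δ' ≠ 0 →
      (D.cp α' γ' β' δ' ↔ D.cp α γ β δ) := by
    intro α' γ' β' δ' h1 h2 h3 h4
    obtain ⟨a1, a2, a3⟩ := hG.supp _ _ h1
    obtain ⟨b1, b2, b3⟩ := hG.supp _ _ h2
    obtain ⟨c1, c2, c3⟩ := hG.supp _ _ h3
    obtain ⟨d1, d2, d3⟩ := hG.supp _ _ h4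
    unfold FD.cp
    rw [a1, a2, a3, b1, b2, b3, c1, c2, c3, d1, d2, d3]
  by_cases h : D.cp α γ β δ
  · rw [if_pos h, SG_key D X c m bp J u hG]
    refine Finset.sum_congr rfl fun α' _ => Finset.sum_congr rfl fun γ' _ =>
      Finset.sum_congr rfl fun β' _ => Finset.sum_congr rfl fun δ' _ => ?_
    by_cases h1 : u α α' = 0
    · rw [h1]
      simp only [zero_mul]
    by_cases h2 : u γ γ' = 0
    · rw [h2]
      simp only [zero_mul, mul_zero]
    by_cases h3 : u β β' = 0
    · rw [h3, star_zero]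
      simp only [zero_mul, mul_zero]
    by_cases h4 : u δ δ' = 0
    · rw [h4, star_zero]
      simp only [mul_zero]
    dsimp only
    rw [if_pos ((hcp α' γ' β' δ' h1 h2 h3 h4).2 h)]
  · rw [if_neg h]
    symm
    apply Finset.sum_eq_zero
    intro α' _
    apply Finset.sum_eq_zero
    intro γ' _
    apply Finset.sum_eq_zero
    intro β' _
    apply Finset.sum_eq_zero
    intro δ' _
    by_cases h1 : u α α' = 0
    · rw [h1]
      simp only [zero_mul]
    by_cases h2 : u γ γ' = 0
    · rw [h2]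
      simp only [zero_mul, mul_zero]
    by_cases h3 : u β β' = 0
    · rw [h3, star_zero]
      simp only [zero_mul, mul_zero]
    by_cases h4 : u δ δ' = 0
    · rw [h4, star_zero]
      simp only [mul_zero]
    dsimp only
    rw [if_neg fun hc => h ((hcp α' γ' β' δ' h1 h2 h3 h4).1 hc)]
    simp only [zero_mul, mul_zero]

/-- Row SG. -/
theorem SG : SG_stmt := by
  intro I V _ _ _ _ D X c m bp J u hJ hG
  refine ⟨⟨?_, ?_, ?_⟩, SG_form D X c m bp J u hG⟩
  · intro β p h
    obtain ⟨β', _, hβ'⟩ := Finset.exists_ne_zero_of_sum_ne_zero h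
    have hu : u β β' ≠ 0 := left_ne_zero_of_mul hβ'
    have hj : J β' p ≠ 0 := right_ne_zero_of_mul hβ'
    obtain ⟨e1, e2, e3⟩ := hG.supp β β' hu
    obtain ⟨j1, j2, j3⟩ := hJ.supp β' p hj
    rw [e1, e3]
    exact ⟨j1, j2, j3⟩
  · intro β β' h1 h2
    have e1 : ∀ p ∈ lists V m, (∑ γ, u β γ * J γ p) * star (∑ γ', u β' γ' * J γ' p) =
        ∑ γ, ∑ γ', (u β γ * star (u β' γ')) * (J γ p * star (J γ' p)) := by
      intro p _
      rw [star_sum, Finset.sum_mul_sum]
      refine Finset.sum_congr rfl fun γ _ => Finset.sum_congr rfl fun γ' _ => ?_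
      rw [star_mul']
      ring
    rw [Finset.sum_congr rfl e1, Finset.sum_comm]
    have e2 : ∀ γ ∈ (univ : Finset V), ∑ p ∈ lists V m, ∑ γ', (u β γ * star (u β' γ')) *
        (J γ p * star (J γ' p)) = u β γ * star (u β' γ) := by
      intro γ _
      rw [Finset.sum_comm]
      have e3 : ∀ γ' ∈ (univ : Finset V), ∑ p ∈ lists V m, (u β γ * star (u β' γ')) *
          (J γ p * star (J γ' p)) = if γ = γ' then u β γ * star (u β' γ') else 0 := by
        intro γ' _
        rw [← Finset.mul_sum]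
        by_cases hu : u β γ = 0
        · rw [hu, zero_mul, zero_mul, ite_self]
        by_cases hu' : u β' γ' = 0
        · rw [hu', star_zero, mul_zero, zero_mul, ite_self]
        obtain ⟨a1, a2, _⟩ := hG.supp _ _ hu
        obtain ⟨b1, b2, _⟩ := hG.supp _ _ hu'
        rw [hJ.orth γ γ' (by rw [← a1, h1, b1]) (by rw [← a2, h2, b2])]
        by_cases hg : γ = γ'
        · rw [if_pos hg, if_pos hg, mul_one]
        · rw [if_neg hg, if_neg hg, mul_zero]
      rw [Finset.sum_congr rfl e3, Finset.sum_ite_eq, if_pos (Finset.mem_univ _)]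
    rw [Finset.sum_congr rfl e2]
    exact hG.row β β'
  · intro a b p q
    rw [← hJ.comp a b p q]
    have e1 : ∀ β ∈ univ.filter (fun β => D.s1 β = a ∧ D.s2 β = b),
        star (∑ γ, u β γ * J γ p) * (∑ γ', u β γ' * J γ' q) =
        ∑ γ, ∑ γ', (star (u β γ) * u β γ') * (star (J γ p) * J γ' q) := by
      intro β _
      rw [star_sum, Finset.sum_mul_sum]
      refine Finset.sum_congr rfl fun γ _ => Finset.sum_congr rfl fun γ' _ => ?_
      rw [star_mul']
      ring
    rw [Finset.sum_congr rfl e1, Finset.sum_comm]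
    have e0 : ∑ β ∈ univ.filter (fun β => D.s1 β = a ∧ D.s2 β = b), star (J β p) * J β q =
        ∑ β, if D.s1 β = a ∧ D.s2 β = b then star (J β p) * J β q else 0 :=
      Finset.sum_filter _ _
    rw [e0]
    refine Finset.sum_congr rfl fun γ _ => ?_
    rw [Finset.sum_comm]
    have e3 : ∀ γ' ∈ (univ : Finset V),
        ∑ β ∈ univ.filter (fun β => D.s1 β = a ∧ D.s2 β = b),
          (star (u β γ) * u β γ') * (star (J γ p) * J γ' q) =
        if γ = γ' then (if D.s1 γ = a ∧ D.s2 γ = b then star (J γ p) * J γ' q else 0) else 0 := by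
      intro γ' _
      rw [← Finset.sum_mul, Finset.sum_filter]
      by_cases hg : D.s1 γ = a ∧ D.s2 γ = b
      · have e4 : ∀ β ∈ (univ : Finset V),
            (if D.s1 β = a ∧ D.s2 β = b then star (u β γ) * u β γ' else 0) =
              star (u β γ) * u β γ' := by
          intro β _
          by_cases hu : u β γ = 0
          · rw [hu, star_zero, zero_mul, ite_self]
          · obtain ⟨a1, a2, _⟩ := hG.supp _ _ hu
            rw [if_pos ⟨by rw [a1, hg.1], by rw [a2, hg.2]⟩]
        rw [Finset.sum_congr rfl e4, hG.col γ γ', if_pos hg]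
        by_cases hgg : γ = γ'
        · rw [if_pos hgg, if_pos hgg, one_mul]
        · rw [if_neg hgg, if_neg hgg, zero_mul]
      · have e4 : ∀ β ∈ (univ : Finset V),
            (if D.s1 β = a ∧ D.s2 β = b then star (u β γ) * u β γ' else 0) = 0 := by
          intro β _
          by_cases hβ : D.s1 β = a ∧ D.s2 β = b
          · rw [if_pos hβ]
            by_cases hu : u β γ = 0
            · rw [hu, star_zero, zero_mul]
            · obtain ⟨a1, a2, _⟩ := hG.supp _ _ hu
              exact absurd ⟨by rw [← a1, hβ.1], by rw [← a2, hβ.2]⟩ hg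
          · rw [if_neg hβ]
        rw [Finset.sum_congr rfl e4, Finset.sum_const_zero, zero_mul, if_neg hg, ite_self]
    rw [Finset.sum_congr rfl e3, Finset.sum_ite_eq, if_pos (Finset.mem_univ _)]

end Pool.Agent.helper93.TV
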